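import Pool.Agent.U499.TW.Example

/-!
# Labelled oriented trees which are built up in several stages

Definitions (`Pool.Agent.U499.TW.Tower`, `.Example`; `Pool.Agent.N819.UD.Stm`, `Pool.Agent.N819.LT.Defs`,
and `Pool.Agent.TH625.LOG.Core`, `.Tree`, `.Main` of the starting library):

* `LOG V E`: a labelled oriented graph with vertices `V` and edges `E`, the edge `e` runs from `ini e` to
  `ter e` and has the label `lab e`, an arbitrary vertex; `L.rel e = x_ini x_lab x_ter⁻¹ x_lab⁻¹`; `L.G`
  is the group with generators `V` and relators `L.rel e`, the fundamental group of the 2-complex `K(L)`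
  with one vertex, 1-cells `V` and 2-cells `E`; `L.Conn`: the graph is connected (it is a tree if it has
  moreover one vertex more than edges);
* `L.bdry`: the boundary operator `C₂ → C₁` of the universal covering of `K(L)`; its kernel is `π₂ K(L)`,
  and `K(L)` is aspherical if and only if it is injective;
* `sub L S'`: only the 2-cells of `S' ⊆ E` are kept (a subcomplex of `K(L)` with all the 1-cells);
* `Conn p q`: the graph with the edges `{p e, q e}` is connected;
* `Mix p q lab R`: the graph with the edges `{p e, lab e}`, `e ∈ R`, and `{q e, lab e}`, `e ∉ R`, is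
  connected (so a tree if there is one vertex more than edges);
* `Spans p lab R`: the graph with the edges `{p e, lab e}`, `e ∈ R`, has the same components as the graph
  with all the edges `{p e, lab e}`;
* `Stage L S T`: the edges `T` are added to the edges `S` in one stage: some of the vertices are divided
  into finitely many classes, the ends and the label of an edge of `S` lie in the same class or all
  outside of the classes, the ends and the labels of the edges of `T` lie in the classes, the quotient
  graph (vertices: the classes, edges: `T`) has one vertex more than edges and exactly one spanning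
  decomposition `R` (`Mix` and `Spans`), in the initial or in the terminal version;
* `Tower L S₀ S`: `S` is reached from `S₀` in finitely many stages;
* `L.ContractibleWith v`: `K(L) ∪ f` is contractible, where the 2-cell `f` is attached along the
  1-cell `v`;
* `L5`: the labelled oriented tree `0 →₂ 1`, `0 →₁ 2`, `3 →₄ 0`, `4 →₃ 2`.
-/

set_option autoImplicit false

namespace Pool.Agent.Results.MP_6de9fc_gt.IteratedDecompositions

open Pool.Agent.TH625.LOG Pool.Agent.N819.LT Pool.Agent.N819.UD Pool.Agent.U499.TW

/-- (1) If the set `S` of edges of a labelled oriented graph `L` is reached from `S₀` in finitely many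
stages, then for every `S' ⊆ S` the second homotopy group of the subcomplex `K(sub L S')` of `K(L)` (the
kernel of the boundary operator of its universal covering) is carried by the 2-cells of `S₀`: the blocks
with the 2-cells `S₀` may be any labelled oriented graphs. (2) So every subcomplex of `K(L)` is aspherical
if `L` is a labelled oriented tree all of whose edges are reached from the empty set, and then `K(L)` is a
subcomplex of the contractible complex `K(L) ∪ f`. (3) The edges `T` form a stage over `S` if the
quotient is a labelled oriented graph whose initial or terminal graph is a tree. (4) The labelled oriented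
tree `L5` is reached in two stages, but it does not have exactly one spanning decomposition, neither in
the initial nor in the terminal version. -/
theorem result :
    (∀ (V E : Type) [Fintype V] [Fintype E] [DecidableEq V] (L : LOG V E) (S₀ S : Set E),
      Tower L S₀ S → ∀ S' ⊆ S, ∀ c : (S' × (sub L S').G) →₀ ℤ, (sub L S').bdry c = 0 →
        ∀ d, c d ≠ 0 → (d.1 : E) ∈ S₀) ∧
    (∀ (V E : Type) [Fintype V] [Fintype E] [DecidableEq V] [DecidableEq E] (L : LOG V E),
      L.Conn → Fintype.card V = Fintype.card E + 1 → Tower L ∅ Set.univ →
        (∀ (S' : Set E) (c : (S' × (sub L S').G) →₀ ℤ), (sub L S').bdry c = 0 → c = 0) ∧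
        ∀ v : V, L.ContractibleWith v) ∧
    (∀ (V E : Type) [Finite E] (L : LOG V E) (S T : Set E) (B : Type) (κ : V → Option B)
      (P Q Λ : T → B), Finite B →
      (∀ e ∈ S, κ (L.ini e) = κ (L.lab e) ∧ κ (L.ter e) = κ (L.lab e)) →
      (∀ e : T, κ (L.ini e) = some (P e) ∧ κ (L.ter e) = some (Q e) ∧ κ (L.lab e) = some (Λ e)) →
      Nat.card B = Nat.card T + 1 → Conn P Λ ∨ Conn Q Λ → Stage L S T) ∧
    (L5.Conn ∧ Tower L5 ∅ Set.univ ∧
      (¬ ∃! R : Set (Fin 4), Mix L5.ini L5.ter L5.lab R ∧ Spans L5.ini L5.lab R) ∧
      ¬ ∃! R : Set (Fin 4), Mix L5.ter L5.ini L5.lab R ∧ Spans L5.ter L5.lab R) :=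
  ⟨fun _ _ _ _ _ L _ _ hT S' hS' c hc => tower_support L hT S' hS' c hc,
    fun _ _ _ _ _ _ L hL hcard hT => ⟨fun S' c hc =>
      tower_aspherical L hT S' (Set.subset_univ _) c hc, fun v => contractibleWith L hL hcard v⟩,
    fun _ _ _ L S T B κ P Q Λ hB h1 h2 hcard h => stage_of_tree L S T B κ P Q Λ hB h1 h2 hcard h,
    L5_conn, L5_tower, L5_ini, L5_ter⟩

end Pool.Agent.Results.MP_6de9fc_gt.IteratedDecompositions
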