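import Pool.Agent.U499.TW.Rel
import Pool.Agent.U499.TW.Example

/-!
# Relative asphericity for labelled oriented graphs, and prime labelled oriented graphs

Definitions (`Pool.Agent.U499.TW.Rel`, `.Tower`; `Pool.Agent.N819.UD.Stm`, `Pool.Agent.N819.LT.Defs`,
and `Pool.Agent.TH625.LOG.Core`, `.Tree`, `.Main` of the starting library):

* `LOG V E`: a labelled oriented graph with vertices `V` and edges `E`, the edge `e` runs from `ini e` to
  `ter e` and has the label `lab e`, an arbitrary vertex; `L.rel e = x_ini x_lab x_ter⁻¹ x_lab⁻¹`; `L.G`
  is the group with generators `V` and relators `L.rel e`, the fundamental group of the 2-complex `K(L)`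
  with one vertex, 1-cells `V` and 2-cells `E`; `L.Conn`: the graph is connected (it is a tree if it has
  moreover one vertex more than edges);
* `Asph L`: the boundary operator `C₂ → C₁` of the universal covering of `K(L)` is injective, i.e. the
  second homotopy group is zero, i.e. `K(L)` is aspherical;
* `sub L R`: only the 2-cells of `R ⊆ E` are kept (a subcomplex of `K(L)` with all the 1-cells);
* `Blk L S₀`: the equivalence relation on the vertices generated by `ini e ~ lab e` and `ter e ~ lab e`
  for the edges `e` of `S₀`; its classes are the blocks of `S₀`; `blockE L S₀ R v₀`: the edges of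
  `R ∩ S₀` in the block of the vertex `v₀`;
* `Stage L S T`: the edges `T` are added to the edges `S` in one stage: some of the vertices are divided
  into finitely many classes, the ends and the label of an edge of `S` lie in the same class or all
  outside of the classes, the ends and the labels of the edges of `T` lie in the classes, the quotient
  graph (vertices: the classes, edges: `T`) has one vertex more than edges and exactly one spanning
  decomposition, i.e. exactly one set `D` of edges with `Mix` (the edges `{ini, lab}` in `D` and
  `{ter, lab}` outside of `D` form a connected graph) and `Spans` (the edges `{ini, lab}` in `D` have the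
  same components as all the edges `{ini, lab}`), or the same with `ini` and `ter` exchanged;
* `Tower L S₀ S`: `S` is reached from `S₀` in finitely many stages;
* `Prime L P`: all the edges of `P` lie in one block of `P`, and `P` is not reached in finitely many
  stages from a smaller set of edges;
* `Conn p q`: the graph with the edges `{p e, q e}` is connected;
* `L.ContractibleWith v`: `K(L) ∪ f` is contractible, where the 2-cell `f` is attached along the
  1-cell `v`.
-/

set_option autoImplicit false

namespace Pool.Agent.Results.MP_6de9fc_gt.RelativeAsphericity

open Pool.Agent.TH625.LOG Pool.Agent.N819.LT Pool.Agent.N819.UD Pool.Agent.U499.TW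

/-- (1) Let the set `S` of edges of a finite labelled oriented graph `L` be reached from `S₀` in finitely
many stages, and `R ⊆ S`. Then the subcomplex `K(sub L R)` is aspherical if and only if for every block
of `S₀` the subcomplex with the 2-cells of `R` in this block is aspherical. Nothing is assumed on the
blocks. (2) In particular this holds if the vertices are divided into classes such that the quotient graph
with the edges `T` is a labelled oriented graph with one vertex more than edges whose initial or terminal
graph is connected. (3) Every subcomplex `K(sub L R)` which is not aspherical contains a subcomplex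
`K(sub L P)` with `P` prime which is not aspherical. So all the subcomplexes with all the 1-cells are
aspherical if and only if those of the prime sets of edges are. (4) If `L` is a labelled oriented tree then
these are subcomplexes of the contractible complexes `K(L) ∪ f`. -/
theorem result :
    (∀ (V E : Type) [Fintype V] [Fintype E] [DecidableEq V] (L : LOG V E) (S₀ S : Set E),
      Tower L S₀ S → ∀ R ⊆ S,
        (Asph (sub L R) ↔ ∀ v₀ : V, Asph (sub L (blockE L S₀ R v₀)))) ∧
    (∀ (V E : Type) [Fintype V] [Fintype E] [DecidableEq V] (L : LOG V E) (S T : Set E) (B : Type)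
      (κ : V → Option B) (P Q Λ : T → B), Finite B →
      (∀ e ∈ S, κ (L.ini e) = κ (L.lab e) ∧ κ (L.ter e) = κ (L.lab e)) →
      (∀ e : T, κ (L.ini e) = some (P e) ∧ κ (L.ter e) = some (Q e) ∧ κ (L.lab e) = some (Λ e)) →
      Nat.card B = Nat.card T + 1 → Conn P Λ ∨ Conn Q Λ → ∀ R ⊆ S ∪ T,
        (Asph (sub L R) ↔ ∀ v₀ : V, Asph (sub L (blockE L S R v₀)))) ∧
    (∀ (V E : Type) [Fintype V] [Fintype E] [DecidableEq V] (L : LOG V E),
      (∀ R : Set E, ¬ Asph (sub L R) → ∃ P ⊆ R, Prime L P ∧ ¬ Asph (sub L P)) ∧
      ((∀ R : Set E, Asph (sub L R)) ↔ ∀ P : Set E, Prime L P → Asph (sub L P))) ∧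
    (∀ (V E : Type) [Fintype V] [Fintype E] [DecidableEq V] [DecidableEq E] (L : LOG V E),
      L.Conn → Fintype.card V = Fintype.card E + 1 → ∀ v : V, L.ContractibleWith v) := by
  refine ⟨fun _ _ _ _ _ L S₀ S hT R hR => rel_asph L hT R hR,
    fun _ _ _ _ _ L S T B κ P Q Λ hB h1 h2 hcard h R hR => ?_, fun _ _ _ _ _ L => ⟨fun R hR =>
      exists_prime L _ R rfl hR, fun h P _ => h P, fun h R => ?_⟩,
    fun _ _ _ _ _ _ L hL hcard v => contractibleWith L hL hcard v⟩
  · exact rel_asph L (Tower.stage S T Tower.base
      (stage_of_tree L S T B κ P Q Λ hB h1 h2 hcard h)) R hR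
  · by_contra hR
    obtain ⟨P, _, hP, hP2⟩ := exists_prime L _ R rfl hR
    exact hP2 (h P hP)

end Pool.Agent.Results.MP_6de9fc_gt.RelativeAsphericity
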